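import Mathlib

set_option autoImplicit false

/-!
# A generalized Collatz map with finitely many ergodic sets which is not onto

The conjecture: for a generalized Collatz mapping `T` of relatively prime type the collection `E(T)` of
all ergodic sets (over all moduli `≥ 2`) is finite if and only if `T(ℤ) = ℤ`.

It is false: for `d = 3`, `m_0 = m_1 = m_2 = 2`, `r_i = 2 i`, that is `T(x) = 2 ⌊x / 3⌋`, the image
`T(ℤ)` is the set of the even integers, while `E(T)` has exactly two elements, `ℤ` and the set of the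
even integers.
-/

namespace Pool.Agent.Results.MP_c1c042_nt.FinitelyManyNotOnto

/-- `m_0, ..., m_{d-1}`, `r_0, ..., r_{d-1}` are the data of a generalized Collatz mapping of relatively
prime type: `d ≥ 2`, all `m_i` are nonzero, `r_i ≡ i m_i (mod d)` and `gcd(m_0 ⋯ m_{d-1}, d) = 1`. -/
def RelPrimeType (d : ℕ) (m r : ℕ → ℤ) : Prop :=
  2 ≤ d ∧ (∀ i < d, m i ≠ 0) ∧ (∀ i < d, r i ≡ i * m i [ZMOD d]) ∧
    Int.gcd (∏ i ∈ Finset.range d, m i) d = 1

/-- The generalized Collatz mapping: `T(x) = (m_i x - r_i) / d` for `x ≡ i (mod d)`, `0 ≤ i < d`. -/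
def T (d : ℕ) (m r : ℕ → ℤ) (x : ℤ) : ℤ := (m (x % d).toNat * x - r (x % d).toNat) / d

/-- The congruence class `B(j, n) = {x : x ≡ j (mod n)}`. -/
def B (j : ℤ) (n : ℕ) : Set ℤ := {x | x ≡ j [ZMOD n]}

/-- `S` is a union of congruence classes modulo `N`, `N ≥ 1`. -/
def IsPeriod (S : Set ℤ) (N : ℕ) : Prop := 0 < N ∧ ∀ x : ℤ, x ∈ S ↔ x + N ∈ S

open scoped Classical in
/-- The measure `μ(S) = r / N` of a set `S` that is the union of `r` congruence classes modulo `N` (here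
`N` is the least possible modulus; the value `0` is given to the sets which are not such unions). -/
noncomputable def mu (S : Set ℤ) : ℚ :=
  if h : ∃ N : ℕ, IsPeriod S N then
    (((Finset.range (Nat.find h)).filter fun t : ℕ => (t : ℤ) ∈ S).card : ℚ) / (Nat.find h : ℚ)
  else 0

/-- The transition matrix `Q_T(n)`, with the entries `μ(B(i,n) ∩ T⁻¹(B(j,n))) / μ(B(i,n))`,
`0 ≤ i, j ≤ n - 1`. -/
noncomputable def Q (d : ℕ) (m r : ℕ → ℤ) (n : ℕ) : Matrix (Fin n) (Fin n) ℚ :=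
  fun i j => mu (B (i : ℕ) n ∩ T d m r ⁻¹' B (j : ℕ) n) / mu (B (i : ℕ) n)

/-- `C` is a positive recurrent class of the finite Markov chain with the transition matrix `P`, that
is, a closed communicating class: `C` is not empty, and the states which can be reached (in `k ≥ 0`
steps, with positive probability) from any state of `C` are exactly the states of `C`. -/
def IsRecurrentClass {n : ℕ} (P : Matrix (Fin n) (Fin n) ℚ) (C : Set (Fin n)) : Prop :=
  C.Nonempty ∧ ∀ i ∈ C, ∀ j, j ∈ C ↔ ∃ k : ℕ, 0 < (P ^ k) i j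

/-- The union `S_C` of the congruence classes which belong to the class `C`. -/
def SC {n : ℕ} (C : Set (Fin n)) : Set ℤ := ⋃ i ∈ C, B ((i : Fin n) : ℕ) n

/-- The collection `E(T)` of all the sets `S_C`, for the moduli `n ≥ 2` and the positive recurrent
classes `C` of `Q_T(n)`. -/
def E (d : ℕ) (m r : ℕ → ℤ) : Set (Set ℤ) :=
  {S | ∃ n : ℕ, 2 ≤ n ∧ ∃ C : Set (Fin n), IsRecurrentClass (Q d m r n) C ∧ S = SC C}

/-! ### The measure -/

lemma mem_B {x j : ℤ} {n : ℕ} : x ∈ B j n ↔ x ≡ j [ZMOD n] := Iff.rfl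

lemma period_mul {S : Set ℤ} {N : ℕ} (h : IsPeriod S N) (x : ℤ) (k : ℕ) :
    x ∈ S ↔ x + N * k ∈ S := by
  induction k with
  | zero => simp
  | succ k ih =>
    rw [ih, h.2 (x + N * k)]
    have e : x + (N : ℤ) * k + N = x + N * ((k + 1 : ℕ) : ℤ) := by push_cast; ring
    rw [e]

lemma period_mul_int {S : Set ℤ} {N : ℕ} (h : IsPeriod S N) (x k : ℤ) :
    x ∈ S ↔ x + N * k ∈ S := by
  rcases Int.le_total 0 k with hk | hk
  · obtain ⟨k', rfl⟩ := Int.eq_ofNat_of_zero_le hk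
    exact period_mul h x k'
  · obtain ⟨k', hk'⟩ := Int.eq_ofNat_of_zero_le (neg_nonneg.2 hk)
    have hk2 : k = -(k' : ℤ) := by omega
    rw [period_mul h (x + N * k) k', hk2]
    have e : x + (N : ℤ) * -(k' : ℤ) + N * k' = x := by ring
    rw [e]

lemma mu_nonneg (S : Set ℤ) : 0 ≤ mu S := by
  unfold mu
  split_ifs
  · positivity
  · exact le_rfl

lemma mu_pos {S : Set ℤ} {N : ℕ} (h : IsPeriod S N) : 0 < mu S ↔ S.Nonempty := by
  classical
  have hex : ∃ N : ℕ, IsPeriod S N := ⟨N, h⟩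
  have hM : IsPeriod S (Nat.find hex) := Nat.find_spec hex
  have e : mu S = (((Finset.range (Nat.find hex)).filter fun t : ℕ => (t : ℤ) ∈ S).card : ℚ) /
      (Nat.find hex : ℚ) := by
    unfold mu
    rw [dif_pos hex]
  rw [e]
  set M := Nat.find hex with hMdef
  have hM0 : (0 : ℚ) < M := by exact_mod_cast hM.1
  rw [div_pos_iff_of_pos_right hM0, Nat.cast_pos, Finset.card_pos]
  constructor
  · rintro ⟨t, ht⟩
    exact ⟨t, (Finset.mem_filter.1 ht).2⟩
  · rintro ⟨x, hx⟩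
    have hMz : (0 : ℤ) < M := by exact_mod_cast hM.1
    have h0 : 0 ≤ x % M := Int.emod_nonneg _ hMz.ne'
    have h1 : x % M < M := Int.emod_lt_of_pos _ hMz
    obtain ⟨t, ht⟩ := Int.eq_ofNat_of_zero_le h0
    refine ⟨t, Finset.mem_filter.2 ⟨?_, ?_⟩⟩
    · rw [Finset.mem_range]
      have : (t : ℤ) < M := by rw [← ht]; exact h1
      exact_mod_cast this
    · have h2 : (t : ℤ) = x + M * (-(x / M)) := by
        rw [← ht]
        have := Int.emod_add_mul_ediv x M
        linarith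
      rw [h2]
      exact (period_mul_int hM x _).1 hx

/-! ### The map `x ↦ 2 ⌊x / 3⌋` -/

/-- `m_i = 2` -/
def mm : ℕ → ℤ := fun _ => 2

/-- `r_i = 2 i` -/
def rr : ℕ → ℤ := fun i => 2 * i

lemma T_eq (x : ℤ) : T 3 mm rr x = 2 * (x / 3) := by
  unfold T mm rr
  have h0 : 0 ≤ x % 3 := Int.emod_nonneg _ (by norm_num)
  have h1 : ((x % ((3 : ℕ) : ℤ)).toNat : ℤ) = x % 3 := by
    push_cast
    exact Int.toNat_of_nonneg h0
  rw [h1]
  push_cast
  have h2 := Int.emod_add_mul_ediv x 3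
  have h3 : 2 * x - 2 * (x % 3) = 3 * (2 * (x / 3)) := by linarith
  rw [h3]
  exact Int.mul_ediv_cancel_left _ (by norm_num)

lemma relPrime : RelPrimeType 3 mm rr := by
  refine ⟨by norm_num, fun i _ => by unfold mm; norm_num, fun i _ => ?_, ?_⟩
  · unfold mm rr
    rw [mul_comm]
  · unfold mm
    rw [Finset.prod_const, Finset.card_range]
    rfl

lemma range_T : Set.range (T 3 mm rr) = {x : ℤ | Even x} := by
  ext x
  constructor
  · rintro ⟨y, rfl⟩
    rw [T_eq]
    exact even_two_mul _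
  · rintro ⟨y, rfl⟩
    refine ⟨3 * y, ?_⟩
    rw [T_eq, Int.mul_ediv_cancel_left _ (by norm_num)]
    ring

lemma period_B (j : ℤ) {n : ℕ} (hn : 0 < n) : IsPeriod (B j n) n := by
  refine ⟨hn, fun x => ?_⟩
  rw [mem_B, mem_B]
  unfold Int.ModEq
  rw [Int.add_emod_right]

lemma period_inter (i j : ℤ) {n : ℕ} (hn : 0 < n) :
    IsPeriod (B i n ∩ T 3 mm rr ⁻¹' B j n) (3 * n) := by
  refine ⟨by omega, fun x => ?_⟩
  have h1 : T 3 mm rr (x + (3 * n : ℕ)) = T 3 mm rr x + n * 2 := by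
    rw [T_eq, T_eq]
    have : (x + ((3 * n : ℕ) : ℤ)) / 3 = x / 3 + n := by
      push_cast
      omega
    rw [this]
    ring
  rw [Set.mem_inter_iff, Set.mem_inter_iff, Set.mem_preimage, Set.mem_preimage, h1, mem_B, mem_B,
    mem_B, mem_B]
  have e1 : (x + ((3 * n : ℕ) : ℤ)) ≡ x [ZMOD n] := by
    have : (x + ((3 * n : ℕ) : ℤ)) = x + n * 3 := by push_cast; ring
    rw [this]
    exact Int.modEq_iff_dvd.2 ⟨-3, by ring⟩
  have e2 : (T 3 mm rr x + (n : ℤ) * 2) ≡ T 3 mm rr x [ZMOD n] :=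
    Int.modEq_iff_dvd.2 ⟨-2, by ring⟩
  constructor
  · rintro ⟨a, b⟩
    exact ⟨e1.trans a, e2.trans b⟩
  · rintro ⟨a, b⟩
    exact ⟨e1.symm.trans a, e2.symm.trans b⟩

lemma Q_nonneg {n : ℕ} (i j : Fin n) : 0 ≤ Q 3 mm rr n i j :=
  div_nonneg (mu_nonneg _) (mu_nonneg _)

lemma Q_pos {n : ℕ} (i j : Fin n) :
    0 < Q 3 mm rr n i j ↔ ∃ x : ℤ, x ∈ B ((i : ℕ) : ℤ) n ∧ T 3 mm rr x ∈ B ((j : ℕ) : ℤ) n := by
  have hn : 0 < n := i.pos
  have h1 : 0 < mu (B ((i : ℕ) : ℤ) n) := (mu_pos (period_B _ hn)).2 ⟨((i : ℕ) : ℤ), rfl⟩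
  unfold Q
  rw [div_pos_iff_of_pos_right h1, mu_pos (period_inter _ _ hn)]
  rfl

/-! ### Closed sets -/

/-- the conjugate map `y ↦ ⌊2 y / 3⌋` -/
def g (y : ℤ) : ℤ := 2 * y / 3

lemma grow (n : ℕ) : ∀ a : ℤ, ∃ (k : ℕ) (a' : ℤ), ∀ y : ℤ, a' ≤ y → y < a' + (n + 2 : ℕ) →
    g^[k] y = a ∨ g^[k] y = a + 1 := by
  induction n with
  | zero =>
    intro a
    refine ⟨0, a, fun y h1 h2 => ?_⟩
    push_cast at h2
    simp only [Function.iterate_zero, id]
    omega
  | succ n ih =>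
    intro a
    obtain ⟨k, a', h⟩ := ih a
    refine ⟨k + 1, (3 * a' + 1) / 2, fun y h1 h2 => ?_⟩
    rw [Function.iterate_succ_apply]
    apply h
    · unfold g
      omega
    · unfold g
      push_cast at h2 ⊢
      omega

lemma all_of_closed {S : Set ℤ} {n : ℕ} (hS : IsPeriod S n) (hne : S.Nonempty)
    (hg : ∀ y ∈ S, g y ∈ S) : ∀ z : ℤ, z ∈ S := by
  have hgk : ∀ k : ℕ, ∀ y ∈ S, g^[k] y ∈ S := by
    intro k
    induction k with
    | zero => intro y hy; exact hy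
    | succ k ih =>
      intro y hy
      rw [Function.iterate_succ_apply]
      exact ih _ (hg y hy)
  have hn : (0 : ℤ) < n := by exact_mod_cast hS.1
  obtain ⟨y0, hy0⟩ := hne
  have hpair : ∀ a : ℤ, a ∈ S ∨ a + 1 ∈ S := by
    intro a
    obtain ⟨k, a', h⟩ := grow n a
    have h1 : 0 ≤ (y0 - a') % n := Int.emod_nonneg _ hn.ne'
    have h2 : (y0 - a') % n < n := Int.emod_lt_of_pos _ hn
    have h3 := Int.emod_add_mul_ediv (y0 - a') n
    have h4 : a' + (y0 - a') % n ∈ S := by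
      rw [period_mul_int hS _ ((y0 - a') / n)]
      have : a' + (y0 - a') % (n : ℤ) + n * ((y0 - a') / n) = y0 := by linarith
      rw [this]
      exact hy0
    have h5 := hgk k _ h4
    rcases h (a' + (y0 - a') % n) (by linarith) (by push_cast; linarith) with h6 | h6
    · left; rwa [h6] at h5
    · right; rwa [h6] at h5
  have heven : ∀ w : ℤ, 2 * w ∈ S := by
    intro w
    rcases hpair (3 * w) with h | h
    · have h1 := hg _ h
      have : g (3 * w) = 2 * w := by unfold g; omega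
      rwa [this] at h1
    · have h1 := hg _ h
      have : g (3 * w + 1) = 2 * w := by unfold g; omega
      rwa [this] at h1
  have hval : ∀ (e : ℕ) (w z : ℤ), w % 2 = 1 → z + 1 = 2 ^ e * w → z ∈ S := by
    intro e
    induction e with
    | zero =>
      intro w z hw hz
      rw [pow_zero, one_mul] at hz
      have : z = 2 * ((w - 1) / 2) := by omega
      rw [this]
      exact heven _
    | succ e ih =>
      intro w z hw hz
      have hz2 : (z + 1) = 2 * (2 ^ e * w) := by rw [hz]; ring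
      have h1 : (3 * (2 ^ e * w) - 1) ∈ S := by
        apply ih (3 * w) _ (by omega)
        ring
      have h2 := hg _ h1
      have h3 : g (3 * (2 ^ e * w) - 1) = z := by
        unfold g
        omega
      rwa [h3] at h2
  have hne1 : ∀ z : ℤ, z + 1 ≠ 0 → z ∈ S := by
    intro z hz
    obtain ⟨e, w, hw, he⟩ := Nat.exists_eq_two_pow_mul_odd (n := (z + 1).natAbs)
      (Int.natAbs_ne_zero.2 hz)
    have hw2 : (w : ℤ) % 2 = 1 := by exact_mod_cast Nat.odd_iff.1 hw
    have he2 : (((z + 1).natAbs : ℕ) : ℤ) = 2 ^ e * (w : ℤ) := by exact_mod_cast he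
    rcases Int.natAbs_eq (z + 1) with h1 | h1
    · exact hval e w z hw2 (by rw [h1, he2])
    · refine hval e (-w) z (by omega) ?_
      rw [h1, he2]
      ring
  intro z
  by_cases hz : z + 1 = 0
  · rw [period_mul_int hS z 1]
    apply hne1
    omega
  · exact hne1 z hz

lemma evens_of_closed {S : Set ℤ} {n : ℕ} (hS : IsPeriod S n) (hne : S.Nonempty)
    (hT : ∀ x ∈ S, T 3 mm rr x ∈ S) : ∀ z : ℤ, 2 * z ∈ S := by
  have h1 : IsPeriod {y : ℤ | 2 * y ∈ S} n := by
    refine ⟨hS.1, fun y => ?_⟩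
    show 2 * y ∈ S ↔ 2 * (y + n) ∈ S
    rw [period_mul_int hS (2 * y) 2]
    have : 2 * y + (n : ℤ) * 2 = 2 * (y + n) := by ring
    rw [this]
  obtain ⟨x, hx⟩ := hne
  refine all_of_closed h1 ⟨x / 3, ?_⟩ ?_
  · show 2 * (x / 3) ∈ S
    rw [← T_eq]
    exact hT x hx
  · intro y hy
    show 2 * g y ∈ S
    unfold g
    rw [← T_eq]
    exact hT _ hy

lemma mem_SC {n : ℕ} {C : Set (Fin n)} {x : ℤ} :
    x ∈ SC C ↔ ∃ i ∈ C, x ≡ ((i : ℕ) : ℤ) [ZMOD n] := by
  unfold SC
  simp only [Set.mem_iUnion, exists_prop]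
  rfl

lemma exists_state {n : ℕ} (hn : 0 < n) (x : ℤ) : ∃ j : Fin n, x ≡ ((j : ℕ) : ℤ) [ZMOD n] := by
  have hn' : (0 : ℤ) < n := by exact_mod_cast hn
  have h0 : 0 ≤ x % n := Int.emod_nonneg _ hn'.ne'
  have h1 : x % n < n := Int.emod_lt_of_pos _ hn'
  obtain ⟨t, ht⟩ := Int.eq_ofNat_of_zero_le h0
  have ht2 : t < n := by
    have : (t : ℤ) < n := by rw [← ht]; exact h1
    exact_mod_cast this
  refine ⟨⟨t, ht2⟩, ?_⟩
  show x % n = ((t : ℕ) : ℤ) % n
  rw [← ht, Int.emod_emod_of_dvd _ (dvd_refl _)]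

lemma SC_period {n : ℕ} (hn : 0 < n) (C : Set (Fin n)) : IsPeriod (SC C) n := by
  refine ⟨hn, fun x => ?_⟩
  rw [mem_SC, mem_SC]
  unfold Int.ModEq
  rw [Int.add_emod_right]

lemma SC_closed {n : ℕ} {C : Set (Fin n)} (hC : IsRecurrentClass (Q 3 mm rr n) C) :
    ∀ x ∈ SC C, T 3 mm rr x ∈ SC C := by
  intro x hx
  obtain ⟨i, hi, hxi⟩ := mem_SC.1 hx
  obtain ⟨j, hj⟩ := exists_state i.pos (T 3 mm rr x)
  refine mem_SC.2 ⟨j, ?_, hj⟩
  rw [hC.2 i hi j]
  refine ⟨1, ?_⟩
  rw [pow_one, Q_pos]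
  exact ⟨x, hxi, hj⟩

lemma pow_even {n : ℕ} (hn : n % 2 = 0) (k : ℕ) (i j : Fin n) (hi : (i : ℕ) % 2 = 0)
    (h : 0 < ((Q 3 mm rr n) ^ k) i j) : (j : ℕ) % 2 = 0 := by
  cases k with
  | zero =>
    rw [pow_zero, Matrix.one_apply] at h
    split_ifs at h with hij
    · rw [← hij]; exact hi
    · exact absurd h (lt_irrefl _)
  | succ k =>
    rw [pow_succ, Matrix.mul_apply] at h
    obtain ⟨l, _, hl⟩ := Finset.exists_lt_of_sum_lt (by simpa using h :
      ∑ _l : Fin n, (0 : ℚ) < ∑ l, ((Q 3 mm rr n) ^ k) i l * (Q 3 mm rr n) l j)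
    have hne : Q 3 mm rr n l j ≠ 0 := by
      intro h0
      rw [h0, mul_zero] at hl
      exact lt_irrefl _ hl
    have hpos : 0 < Q 3 mm rr n l j := lt_of_le_of_ne (Q_nonneg l j) (Ne.symm hne)
    obtain ⟨x, -, hx⟩ := (Q_pos l j).1 hpos
    rw [mem_B, T_eq] at hx
    have h2 : (2 : ℤ) ∣ n := by exact_mod_cast Nat.dvd_of_mod_eq_zero hn
    have h3 := (Int.modEq_iff_dvd.1 hx)
    have h4 := h2.trans h3
    omega

/-- Every element of `E(T)` is `ℤ` or the set of the even integers. -/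
lemma E_sub {S : Set ℤ} (h : S ∈ E 3 mm rr) : S = Set.univ ∨ S = {x : ℤ | Even x} := by
  obtain ⟨n, hn, C, hC, rfl⟩ := h
  have hn0 : 0 < n := by omega
  have hne : (SC C).Nonempty := by
    obtain ⟨i, hi⟩ := hC.1
    exact ⟨((i : ℕ) : ℤ), mem_SC.2 ⟨i, hi, rfl⟩⟩
  have hev := evens_of_closed (SC_period hn0 C) hne (SC_closed hC)
  rcases Nat.mod_two_eq_zero_or_one n with h2 | h2
  · right
    have h0 : (⟨0, hn0⟩ : Fin n) ∈ C := by
      obtain ⟨i, hi, h⟩ := mem_SC.1 (hev 0)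
      have hi0 : (i : ℕ) = 0 := by
        have h1 : ((i : ℕ) : ℤ) % n = 0 := by
          have := h.symm
          unfold Int.ModEq at this
          rw [this]
          simp
        have h3 : (i : ℕ) % n = 0 := by exact_mod_cast h1
        rwa [Nat.mod_eq_of_lt i.2] at h3
      have : i = ⟨0, hn0⟩ := Fin.ext hi0
      rwa [this] at hi
    ext x
    constructor
    · intro hx
      obtain ⟨j, hj, h⟩ := mem_SC.1 hx
      obtain ⟨k, hk⟩ := (hC.2 _ h0 j).1 hj
      have hj2 := pow_even h2 k _ j (by simp) hk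
      have h3 : (2 : ℤ) ∣ n := by exact_mod_cast Nat.dvd_of_mod_eq_zero h2
      have h4 := h3.trans (Int.modEq_iff_dvd.1 h)
      show Even x
      rw [Int.even_iff]
      omega
    · rintro ⟨y, rfl⟩
      have := hev y
      rwa [two_mul] at this
  · left
    ext x
    simp only [Set.mem_univ, iff_true]
    rcases Int.emod_two_eq_zero_or_one x with h3 | h3
    · have := hev (x / 2)
      have e : 2 * (x / 2) = x := by omega
      rwa [e] at this
    · rw [period_mul_int (SC_period hn0 C) x 1]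
      have := hev ((x + n * 1) / 2)
      have e : 2 * ((x + (n : ℤ) * 1) / 2) = x + n * 1 := by omega
      rwa [e] at this

lemma univ_mem : (Set.univ : Set ℤ) ∈ E 3 mm rr := by
  refine ⟨3, by norm_num, Set.univ, ⟨⟨0, trivial⟩, fun i _ j => ?_⟩, ?_⟩
  · simp only [Set.mem_univ, true_iff]
    refine ⟨1, ?_⟩
    rw [pow_one, Q_pos]
    refine ⟨(i : ℕ) + 3 * (2 * (j : ℕ)), ?_, ?_⟩
    · rw [mem_B]
      exact Int.modEq_iff_dvd.2 ⟨-(2 * (j : ℕ)), by push_cast; ring⟩
    · rw [mem_B, T_eq]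
      have hi := i.2
      have e : (((i : ℕ) : ℤ) + 3 * (2 * (j : ℕ))) / 3 = 2 * (j : ℕ) := by omega
      rw [e]
      exact Int.modEq_iff_dvd.2 ⟨-(j : ℕ), by push_cast; ring⟩
  · ext x
    simp only [Set.mem_univ, true_iff]
    obtain ⟨j, hj⟩ := exists_state (n := 3) (by norm_num) x
    exact mem_SC.2 ⟨j, trivial, hj⟩

lemma evens_mem : {x : ℤ | Even x} ∈ E 3 mm rr := by
  have hz : ∀ i j : Fin 2, 0 < Q 3 mm rr 2 i j → j = 0 := by
    intro i j h
    obtain ⟨x, -, hx⟩ := (Q_pos i j).1 h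
    rw [mem_B, T_eq] at hx
    have := Int.modEq_iff_dvd.1 hx
    have hj := j.2
    apply Fin.ext
    push_cast at this
    have e : ((0 : Fin 2) : ℕ) = 0 := rfl
    rw [e]
    omega
  refine ⟨2, le_rfl, {0}, ⟨⟨0, rfl⟩, fun i hi j => ?_⟩, ?_⟩
  · rw [Set.mem_singleton_iff] at hi
    subst hi
    rw [Set.mem_singleton_iff]
    constructor
    · rintro rfl
      exact ⟨0, by rw [pow_zero, Matrix.one_apply_eq]; norm_num⟩
    · rintro ⟨k, hk⟩
      have h1 := pow_even (n := 2) (by norm_num) k 0 j (by simp) hk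
      have hj := j.2
      apply Fin.ext
      have e : ((0 : Fin 2) : ℕ) = 0 := rfl
      rw [e]
      omega
  · ext x
    rw [mem_SC]
    constructor
    · intro h
      refine ⟨0, rfl, ?_⟩
      have h1 : x % 2 = 0 := Int.even_iff.1 h
      show x % ((2 : ℕ) : ℤ) = _
      simpa using h1
    · rintro ⟨i, hi, h⟩
      rw [Set.mem_singleton_iff] at hi
      subst hi
      have h1 : x % ((2 : ℕ) : ℤ) = (((0 : Fin 2) : ℕ) : ℤ) % ((2 : ℕ) : ℤ) := h
      show Even x
      rw [Int.even_iff]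
      simpa using h1

/-- **The conjecture is false.** For the generalized Collatz mapping of relatively prime type with
`d = 3`, `m_i = 2`, `r_i = 2 i`, which is `T(x) = 2 ⌊x / 3⌋`, the image of `T` is the set of the even
integers, and the collection `E(T)` of all the ergodic sets has just the two elements `ℤ` and the set of
the even integers. So `E(T)` can be finite although `T(ℤ) ≠ ℤ`. -/
theorem result :
    (RelPrimeType 3 (fun _ => 2) (fun i => 2 * i) ∧
      (∀ x : ℤ, T 3 (fun _ => 2) (fun i => 2 * i) x = 2 * (x / 3)) ∧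
      Set.range (T 3 (fun _ => 2) (fun i => 2 * i)) = {x : ℤ | Even x} ∧
      E 3 (fun _ => 2) (fun i => 2 * i) = {Set.univ, {x : ℤ | Even x}}) ∧
    ¬ ∀ (d : ℕ) (m r : ℕ → ℤ), RelPrimeType d m r →
      ((E d m r).Finite ↔ Set.range (T d m r) = Set.univ) := by
  have hE : E 3 mm rr = {Set.univ, {x : ℤ | Even x}} := by
    ext S
    rw [Set.mem_insert_iff, Set.mem_singleton_iff]
    constructor
    · exact E_sub
    · rintro (rfl | rfl)
      · exact univ_mem
      · exact evens_mem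
  refine ⟨⟨relPrime, T_eq, range_T, hE⟩, fun h => ?_⟩
  have h1 := (h 3 mm rr relPrime).1 (by
    rw [hE]
    exact Set.toFinite _)
  rw [range_T] at h1
  have h2 : (1 : ℤ) ∈ {x : ℤ | Even x} := by rw [h1]; trivial
  have h3 : Even (1 : ℤ) := h2
  exact absurd h3 (by decide)

end Pool.Agent.Results.MP_c1c042_nt.FinitelyManyNotOnto
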